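import Pool.Agent.Work.MP_298761_vhc.Ops
import Pool.Agent.Work.MP_a60482_kc.Num

/-!
A very general hyperplane section `Y` of `X`, `dim X = 2 m`, satisfying the sign conjecture:
multiplication by the hyperplane class maps the algebraic classes of codimension `m` on `X`
onto those of codimension `m + 1`.
-/

open CategoryTheory MonoidalCategory CartesianMonoidalCategory

universe u v w x

namespace Pool.SL

open Pool.KC

variable {V : Type u} [Category.{v} V] [CartesianMonoidalCategory V] {K : Type x} [Field K]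
variable (T : WeilTheory.{u, v, w, x} V K)

/-- the square `Y × Y ⟶ X × X` of a morphism -/
abbrev sq {X Y : V} (i : Y ⟶ X) : Y ⊗ Y ⟶ X ⊗ X := lift (fst Y Y ≫ i) (snd Y Y ≫ i)

variable {T}

theorem pull_sq_pure {X Y : V} (i : Y ⟶ X) (p q : T.H X) :
    T.pull (sq i) (T.pull (fst X X) p * T.pull (snd X X) q) =
      T.pull (fst Y Y) (T.pull i p) * T.pull (snd Y Y) (T.pull i q) := by
  rw [map_mul, T.pull_comp', T.pull_comp', lift_fst, lift_snd, T.pull_comp, T.pull_comp]

/-- the operator of `(i × i)^* g` on a class orthogonal to the classes coming from `X` -/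
theorem act_sq_van {X Y : V} (i : Y ⟶ X) (g : T.H (X ⊗ X)) {v : T.H Y}
    (hv : ∀ a, T.tr Y (v * T.pull i a) = 0) : T.act (T.pull (sq i) g) v = 0 := by
  refine T.kind (P := fun g => T.act (T.pull (sq i) g) v = 0) (by simp [T.act_zero]) ?_ ?_ g
  · intro p q
    rw [pull_sq_pure, T.act_pure, hv, zero_smul]
  · intro a b h1 h2
    rw [map_add, T.act_add, LinearMap.add_apply, h1, h2, add_zero]

/-- the operator of `(i × i)^* g` on a class coming from `X` -/
theorem act_sq_pull {X Y : V} (i : Y ⟶ X) {c : T.H X} (hc : c ∈ T.C X 1) {r : K}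
    (htr : ∀ a, T.tr Y (T.pull i a) = r * T.tr X (a * c)) (g : T.H (X ⊗ X)) (a : T.H X) :
    T.act (T.pull (sq i) g) (T.pull i a) = r • T.pull i (T.act g (a * c)) := by
  refine T.kind (P := fun g => T.act (T.pull (sq i) g) (T.pull i a) =
    r • T.pull i (T.act g (a * c))) (by simp [T.act_zero]) ?_ ?_ g
  · intro p q
    rw [pull_sq_pure, T.act_pure, T.act_pure, ← map_mul, htr, map_smul, smul_smul, mul_assoc a c,
      T.even_comm (T.C_deg _ _ hc), mul_assoc]
  · intro p q h1 h2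
    rw [map_add, T.act_add, T.act_add, LinearMap.add_apply, LinearMap.add_apply, map_add,
      smul_add, h1, h2]

/-- components of even degrees come from `X` if the classes of even degree do -/
theorem component_mem_range {X Y : V} {i : Y ⟶ X} {n s t : ℕ}
    (hs : ∀ y ∈ T.deg Y s, ∃ a ∈ T.deg X s, T.pull i a = y)
    (ht : ∀ y ∈ T.deg Y t, ∃ a ∈ T.deg X t, T.pull i a = y) (hst : s + t = n)
    (z : T.H (Y ⊗ Y)) :
    T.component Y Y s t z ∈ (T.deg (X ⊗ X) n).map (T.pull (sq i)).toLinearMap := by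
  refine T.kind (P := fun z => T.component Y Y s t z ∈
    (T.deg (X ⊗ X) n).map (T.pull (sq i)).toLinearMap) (by simp) ?_ ?_ z
  · intro p q
    obtain ⟨p', hp', hp⟩ := hs _ (T.proj_mem s p)
    obtain ⟨q', hq', hq⟩ := ht _ (T.proj_mem t q)
    have h1 : T.component Y Y s t (T.pull (fst Y Y) p * T.pull (snd Y Y) q) =
        T.pull (fst Y Y) (T.proj Y s p) * T.pull (snd Y Y) (T.proj Y t q) := by
      rw [← T.kun_tmul, ← T.kun_tmul]
      simp [Cohomology.component, Cohomology.proj]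
    rw [h1, ← hp, ← hq, ← pull_sq_pure]
    exact ⟨_, T.deg_of_eq (T.mul_deg (T.fst_deg hp') (T.snd_deg hq')) hst, rfl⟩
  · intro a b h1 h2
    rw [map_add]
    exact add_mem h1 h2

/-- a class acting by zero on the odd cohomology comes from `X` if the even cohomology does -/
theorem exists_of_even {X Y : V} {i : Y ⟶ X}
    (hres : ∀ j, ∀ y ∈ T.deg Y (2 * j), ∃ a ∈ T.deg X (2 * j), T.pull i a = y)
    {z : T.H (Y ⊗ Y)} (hz : z ∈ T.deg (Y ⊗ Y) (2 * T.dim Y))
    (hodd : ∀ j, ∀ a ∈ T.deg Y (2 * j + 1), T.act z a = 0) :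
    ∃ g ∈ T.deg (X ⊗ X) (2 * T.dim Y), T.pull (sq i) g = z := by
  have h1 : z = ∑ k ∈ Finset.range (2 * T.dim Y + 1),
      T.component Y Y (2 * T.dim Y - k) k z := by
    apply T.act_injective
    ext a
    have h2 : T.act (∑ k ∈ Finset.range (2 * T.dim Y + 1),
        T.component Y Y (2 * T.dim Y - k) k z) a =
        ∑ k ∈ Finset.range (2 * T.dim Y + 1), T.act z (T.proj Y k a) := by
      rw [← T.actEquiv_apply, map_sum, LinearMap.sum_apply]
      apply Finset.sum_congr rfl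
      intro k hk
      rw [Finset.mem_range] at hk
      rw [T.actEquiv_apply, T.act_component (by omega)]
      simp only [LinearMap.comp_apply]
      rw [show 2 * T.dim Y - (2 * T.dim Y - k) = k by omega]
      exact T.proj_same (T.act_deg hz (by omega) (T.proj_mem k a))
    rw [h2, ← map_sum]
    congr 1
    have h3 := congrArg (fun f : Module.End K (T.H Y) => f a) (T.projs Y).sum
    simpa [LinearMap.sum_apply] using h3.symm
  have h3 : z ∈ (T.deg (X ⊗ X) (2 * T.dim Y)).map (T.pull (sq i)).toLinearMap := by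
    rw [h1]
    apply sum_mem
    intro k hk
    rw [Finset.mem_range] at hk
    rcases Nat.even_or_odd' k with ⟨j, hj | hj⟩
    · refine component_mem_range ?_ ?_ (by omega) z
      · intro y hy
        obtain ⟨a, ha, hay⟩ := hres (T.dim Y - j) y (T.deg_of_eq hy (by omega))
        exact ⟨a, T.deg_of_eq ha (by omega), hay⟩
      · intro y hy
        obtain ⟨a, ha, hay⟩ := hres j y (T.deg_of_eq hy (by omega))
        exact ⟨a, T.deg_of_eq ha (by omega), hay⟩
    · have h4 : T.component Y Y (2 * T.dim Y - k) k z = 0 := by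
        apply T.act_injective
        rw [T.act_component (by omega), T.act_zero]
        ext a
        simp only [LinearMap.comp_apply, LinearMap.zero_apply]
        rw [show 2 * T.dim Y - (2 * T.dim Y - k) = k by omega]
        rw [hodd j _ (T.deg_of_eq (T.proj_mem k a) hj), map_zero]
      rw [h4]
      exact zero_mem _
  exact h3

/-- Data of a very general smooth hyperplane section. -/
structure Section {X : V} (c : T.H X) (m : ℕ) where
  Y : V
  i : Y ⟶ X
  r : K
  r_ne : r ≠ 0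
  dim : T.dim Y + 1 = 2 * m
  tr : ∀ a, T.tr Y (T.pull i a) = r * T.tr X (a * c)
  weak : ∀ j < T.dim Y, ∀ y ∈ T.deg Y j, ∃ a ∈ T.deg X j, T.pull i a = y
  hard : ∀ j k, j + k = T.dim Y → ∀ y ∈ T.deg Y (j + 2 * k),
    ∃ e ∈ T.deg Y j, T.pull i c ^ k * e = y
  v : T.H Y
  v_mem : v ∈ T.deg Y (T.dim Y)
  v_ne : v ≠ 0
  v_orth : ∀ a, T.tr Y (v * T.pull i a) = 0
  spread : ∀ z ∈ T.C (Y ⊗ Y) (T.dim Y),
    (∃ g ∈ T.deg (X ⊗ X) (2 * T.dim Y), ∃ s : K, z = T.pull (sq i) g + s • T.diag Y) →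
    ∃ g ∈ T.C (X ⊗ X) (T.dim Y), ∃ s : K, z = T.pull (sq i) g + s • T.diag Y

theorem Section.res {X : V} {c : T.H X} (hc : c ∈ T.C X 1) {m : ℕ} (S : Section c m) (j : ℕ) :
    ∀ y ∈ T.deg S.Y (2 * j), ∃ a ∈ T.deg X (2 * j), T.pull S.i a = y := by
  intro y hy
  have hd := S.dim
  rcases Nat.lt_or_ge (T.dim S.Y) j with h0 | h0
  · exact ⟨0, zero_mem _, by rw [map_zero, T.deg_eq_zero hy (by omega)]⟩
  rcases Nat.lt_or_ge (2 * j) (T.dim S.Y) with h1 | h1
  · exact S.weak _ h1 y hy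
  · obtain ⟨e, he, hey⟩ := S.hard (2 * (T.dim S.Y - j)) (2 * j - T.dim S.Y) (by omega) y
      (T.deg_of_eq hy (by omega))
    obtain ⟨a, ha, hae⟩ := S.weak _ (by omega) e he
    refine ⟨c ^ (2 * j - T.dim S.Y) * a, ?_, ?_⟩
    · exact T.deg_of_eq (T.mul_deg (T.C_deg _ _ (T.C_pow hc _)) ha) (by omega)
    · rw [map_mul, map_pow, hae, hey]

/-- the sign conjecture for a very general hyperplane section gives the surjectivity -/
theorem Section.surj {X : V} {c : T.H X} (hc : c ∈ T.C X 1) {m : ℕ} (hm : 1 ≤ m)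
    (hX : T.dim X = 2 * m) (S : Section c m)
    (hsign : ∃ z ∈ T.C (S.Y ⊗ S.Y) (T.dim S.Y),
      (∀ (j : ℕ), ∀ a ∈ T.deg S.Y (2 * j), T.act z a = a) ∧
      ∀ (j : ℕ), ∀ a ∈ T.deg S.Y (2 * j + 1), T.act z a = 0)
    (hard : ∀ a ∈ T.deg X (2 * m + 2), ∃ e ∈ T.deg X (2 * m), c * e = a)
    {a : T.H X} (ha : a ∈ T.C X (m + 1)) : ∃ e ∈ T.C X m, c * e = a := by
  have hd := S.dim
  obtain ⟨z, hz, heven, hodd⟩ := hsign
  obtain ⟨g0, hg0, hg0z⟩ := exists_of_even (S.res hc) (T.C_deg _ _ hz) hodd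
  obtain ⟨g, hg, s, hgz⟩ := S.spread z hz ⟨g0, hg0, 0, by rw [zero_smul, add_zero, hg0z]⟩
  have hs : s = 0 := by
    have h1 : T.act z S.v = 0 := hodd (m - 1) _ (T.deg_of_eq S.v_mem (by omega))
    rw [hgz, T.act_add, T.act_smul, LinearMap.add_apply, LinearMap.smul_apply,
      act_sq_van S.i g S.v_orth, zero_add, T.act_diag, LinearMap.id_apply] at h1
    exact (smul_eq_zero.mp h1).resolve_right S.v_ne
  rw [hs, zero_smul, add_zero] at hgz
  obtain ⟨ξ, hξ, hξa⟩ := hard a (T.deg_of_eq (T.C_deg _ _ ha) (by omega))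
  have h2 : T.pull S.i ξ = S.r • T.pull S.i (T.act g a) := by
    have h3 := act_sq_pull S.i hc S.tr g ξ
    rw [← T.even_comm (T.C_deg _ _ hc) ξ, hξa, ← hgz, heven m _ (T.pull_deg _ hξ)] at h3
    exact h3
  refine ⟨S.r • T.act g a, Submodule.smul_mem _ _ (T.act_mem hg ha (by omega)), ?_⟩
  rw [← sub_eq_zero]
  apply T.nondeg
  intro b
  have h4 : S.r * T.tr X (b * (c * (S.r • T.act g a - ξ))) = 0 := by
    have h5 := S.tr (b * (S.r • T.act g a - ξ))
    rw [map_mul, map_sub, map_smul, ← h2, sub_self, mul_zero, map_zero] at h5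
    rw [T.even_comm (T.C_deg _ _ hc) (S.r • T.act g a - ξ), ← mul_assoc, ← h5]
  have h6 : c * (S.r • T.act g a) - a = c * (S.r • T.act g a - ξ) := by rw [mul_sub, hξa]
  rw [h6]
  exact (mul_eq_zero.mp h4).resolve_left S.r_ne

end Pool.SL
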